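import Mathlib

set_option autoImplicit false
set_option linter.unusedSectionVars false

/-!
# PGL(2, q) is not strict EKR robust for odd q

Let `q` be odd and let `D` be the set of the derangements in the subgroup `PSL(2, q)` of index `2` of
`PGL(2, q)`. After the removal of `D` the subgroup `PSL(2, q)` becomes an independent set of the
derangement graph, of size `|PGL(2, q)| / 2`, which is larger than `|PGL(2, q)| / (q + 1)`. On the
other hand `D` contains no set of all derangements which map `i` to `j` or `j` to `i`: if `d` is not a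
square, there is `t` such that `t ^ 2 - 4 d` is not a square, and a matrix with determinant `d` and
trace `t` which maps a vector spanning `i` to a vector spanning `j` gives a derangement outside
`PSL(2, q)`.
-/

namespace Pool.Agent.Results.MP_6fd06d_co.OddCharacteristic

/-- The set of the elements of `G` without fixed points on `Ω`. -/
def derangements (G Ω : Type*) [Group G] [MulAction G Ω] : Set G := {g | ∀ x : Ω, g • x ≠ x}

/-- The set `D_{i → j}` of the derangements which map `i` to `j`. -/
def mapping (G : Type*) {Ω : Type*} [Group G] [MulAction G Ω] (i j : Ω) : Set G :=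
  {g | g ∈ derangements G Ω ∧ g • i = j}

/-- The Cayley graph `Cay(G, S)` of an inverse-closed set `S`: the elements `g ≠ h` are adjacent if and
only if `h g⁻¹ ∈ S` (or, equivalently, `g h⁻¹ ∈ S`). -/
def cayley {G : Type*} [Group G] (S : Set G) : SimpleGraph G :=
  SimpleGraph.fromRel fun g h => h * g⁻¹ ∈ S

/-- `G` is strict EKR robust on the finite set `Ω`: for every inverse-closed set `D` of derangements
which contains `D_{i → j} ∪ D_{j → i}` for no `i ≠ j`, the independence number of the Cayley graph
`Cay(G, Der(G) \ D)` is `|G| / |Ω|`. -/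
def StrictEKRRobust (G Ω : Type*) [Group G] [MulAction G Ω] : Prop :=
  ∀ D ⊆ derangements G Ω, (∀ g ∈ D, g⁻¹ ∈ D) →
    (∀ i j : Ω, i ≠ j → ¬ (mapping G i j ∪ mapping G j i ⊆ D)) →
    ((cayley (derangements G Ω \ D)).indepNum : ℚ) = (Nat.card G : ℚ) / (Nat.card Ω : ℚ)

/-- A general criterion: a subgroup `H` of index two such that each `i` is mapped to each `j ≠ i` by a
derangement outside `H`. -/
theorem not_robust {G Ω : Type*} [Group G] [MulAction G Ω] [Finite G] (H : Subgroup G)
    (hH : H.index = 2) (hΩ : 2 < Nat.card Ω)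
    (h : ∀ i j : Ω, i ≠ j → ∃ g ∈ mapping G i j, g ∉ H) : ¬ StrictEKRRobust G Ω := by
  intro hrob
  have h1 := hrob (derangements G Ω ∩ H) Set.inter_subset_left (by
    rintro g ⟨hg, hgH⟩
    refine ⟨fun x hx => hg x ?_, H.inv_mem hgH⟩
    rw [eq_comm, ← hx, smul_inv_smul, hx]) (by
    intro i j hij hsub
    obtain ⟨g, hg, hgH⟩ := h i j hij
    exact hgH (hsub (Or.inl hg)).2)
  classical
  have : Fintype G := Fintype.ofFinite G
  let t : Finset G := (H : Set G).toFinset
  have h2 : (cayley (derangements G Ω \ (derangements G Ω ∩ H))).IsIndepSet t := by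
    intro a ha b hb _ hadj
    have ha' : a ∈ H := by simpa [t] using ha
    have hb' : b ∈ H := by simpa [t] using hb
    rw [cayley, SimpleGraph.fromRel_adj] at hadj
    rcases hadj.2 with h3 | h3
    · exact h3.2 ⟨h3.1, H.mul_mem hb' (H.inv_mem ha')⟩
    · exact h3.2 ⟨h3.1, H.mul_mem ha' (H.inv_mem hb')⟩
  have h3 := h2.card_le_indepNum
  have h4 : t.card = Nat.card H := by
    rw [Set.toFinset_card, Nat.card_eq_fintype_card]
    rfl
  have h5 := H.card_mul_index
  rw [hH] at h5
  have h6 : (Nat.card H : ℚ) ≤ (Nat.card G : ℚ) / (Nat.card Ω : ℚ) := by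
    rw [← h1, ← h4]
    exact_mod_cast h3
  have hΩ' : (2 : ℚ) < Nat.card Ω := by exact_mod_cast hΩ
  have hHpos : (0 : ℚ) < Nat.card H := by exact_mod_cast Nat.card_pos
  rw [le_div_iff₀ (by linarith)] at h6
  have h7 : (Nat.card H : ℚ) * 2 = Nat.card G := by exact_mod_cast h5
  nlinarith

open Matrix MatrixGroups LinearAlgebra.Projectivization Matrix.ProjGenLinGroup

variable {F : Type*} [Field F] [Fintype F] [DecidableEq F]

/-- The square class of the determinant, on `GL(2, F)`. -/
noncomputable def sgn (F : Type*) [Field F] [Fintype F] [DecidableEq F] : GL (Fin 2) F →* ℤˣ :=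
  (Units.map (quadraticChar F).toMonoidHom).comp Matrix.GeneralLinearGroup.det

theorem sgn_val (g : GL (Fin 2) F) :
    ((sgn F g : ℤˣ) : ℤ) = quadraticChar F (Matrix.GeneralLinearGroup.det g : Fˣ) := rfl

theorem sgn_scalar (u : Fˣ) : sgn F (Matrix.GeneralLinearGroup.scalar (Fin 2) u) = 1 := by
  apply Units.ext
  rw [sgn_val]
  have h1 : ((Matrix.GeneralLinearGroup.det (Matrix.GeneralLinearGroup.scalar (Fin 2) u) : Fˣ) : F)
      = (u : F) ^ 2 := by
    simp [sq]
  rw [h1, quadraticChar_sq_one' u.ne_zero, Units.val_one]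

/-- The image of the matrices with square determinant. -/
noncomputable def half (F : Type*) [Field F] [Fintype F] [DecidableEq F] : Subgroup PGL(2, F) :=
  (sgn F).ker.map mk

theorem ker_le : (mk : GL (Fin 2) F →* PGL(2, F)).ker ≤ (sgn F).ker := by
  intro z hz
  rw [ker_mk, Matrix.GeneralLinearGroup.center_eq_range_scalar] at hz
  obtain ⟨u, rfl⟩ := hz
  exact sgn_scalar u

theorem mem_half (g : GL (Fin 2) F) : (mk g : PGL(2, F)) ∈ half F ↔ sgn F g = 1 := by
  rw [half, Subgroup.mem_map]
  constructor
  · rintro ⟨g', hg', h⟩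
    rw [mk_eq_mk_iff] at h
    obtain ⟨u, rfl⟩ := h
    rw [map_mul, sgn_scalar, mul_one]
    exact hg'
  · intro h
    exact ⟨g, h, rfl⟩

theorem exists_gl (d : F) (hd : d ≠ 0) (t : F) : ∃ C : GL (Fin 2) F,
    (C : Matrix (Fin 2) (Fin 2) F) = !![0, -d; 1, t] ∧
      ((Matrix.GeneralLinearGroup.det C : Fˣ) : F) = d := by
  refine ⟨Matrix.GeneralLinearGroup.mkOfDetNeZero !![0, -d; 1, t] ?_, rfl, ?_⟩
  · simpa [Matrix.det_fin_two] using hd
  · simp [Matrix.GeneralLinearGroup.mkOfDetNeZero, Matrix.det_fin_two]

theorem index_half (hF : ringChar F ≠ 2) : (half F).index = 2 := by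
  rw [half, Subgroup.index_map_eq _ mk_surjective ker_le, Subgroup.index_ker]
  have h1 : (sgn F).range = ⊤ := by
    rw [MonoidHom.range_eq_top]
    intro x
    rcases Int.units_eq_one_or x with rfl | rfl
    · exact ⟨1, map_one _⟩
    · obtain ⟨d, hd⟩ := FiniteField.exists_nonsquare hF
      have hd0 : d ≠ 0 := by
        rintro rfl
        exact hd (IsSquare.zero)
      obtain ⟨C, -, hC⟩ := exists_gl d hd0 0
      refine ⟨C, Units.ext ?_⟩
      rw [sgn_val, hC, quadraticChar_neg_one_iff_not_isSquare.2 hd]
      rfl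
  rw [h1]
  simp

/-- There is a trace such that the discriminant is not a square. -/
theorem exists_trace (hF : ringChar F ≠ 2) {d : F} (hd : d ≠ 0) :
    ∃ t : F, ¬ IsSquare (t ^ 2 - 4 * d) := by
  have h2 : (2 : F) ≠ 0 := Ring.two_ne_zero hF
  let φ : Fˣ → F := fun a => ((a : F) + 4 * d / a) / 2
  have hns : ¬ Function.Surjective φ := by
    intro hs
    have h1 := Fintype.card_le_of_surjective φ hs
    have h3 : Fintype.card Fˣ = Fintype.card F - 1 := Fintype.card_units F
    have h4 : 0 < Fintype.card F := Fintype.card_pos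
    omega
  obtain ⟨t, ht⟩ := not_forall.1 hns
  refine ⟨t, ?_⟩
  rintro ⟨s, hs⟩
  apply ht
  have h5 : (t + s) * (t - s) = 4 * d := by
    linear_combination hs
  have h4 : (4 : F) ≠ 0 := by
    have : (4 : F) = 2 * 2 := by norm_num
    rw [this]
    exact mul_ne_zero h2 h2
  have h6 : t + s ≠ 0 := by
    intro h
    rw [h, zero_mul] at h5
    exact mul_ne_zero h4 hd h5.symm
  refine ⟨Units.mk0 (t + s) h6, ?_⟩
  change ((t + s) + 4 * d / (t + s)) / 2 = t
  rw [← h5]
  field_simp
  ring

/-- The companion matrix has no fixed points on the projective line. -/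
theorem companion (t d : F) (hns : ¬ IsSquare (t ^ 2 - 4 * d)) {C : GL (Fin 2) F}
    (hC : (C : Matrix (Fin 2) (Fin 2) F) = !![0, -d; 1, t]) (x : ℙ F (Fin 2 → F)) :
    (mk C : PGL(2, F)) • x ≠ x := by
  induction x using Projectivization.ind with
  | _ v hv =>
    intro h
    rw [Projectivization.PGL.mk_smul_mk, Projectivization.mk_eq_mk_iff'] at h
    obtain ⟨a, ha⟩ := h
    have h1 : C • v = (C : Matrix (Fin 2) (Fin 2) F) *ᵥ v := rfl
    rw [h1, hC] at ha
    have e0 := congrFun ha 0
    have e1 := congrFun ha 1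
    simp [Matrix.mulVec, dotProduct, Fin.sum_univ_two] at e0 e1
    have hv1 : v 1 ≠ 0 := by
      intro h0
      rw [h0] at e1
      apply hv
      funext i
      fin_cases i
      · simpa using e1.symm
      · exact h0
    apply hns
    refine ⟨2 * a - t, ?_⟩
    have h3 : (a ^ 2 - t * a + d) * v 1 = 0 := by
      linear_combination a * e1 + e0
    have h4 := (mul_eq_zero.1 h3).resolve_right hv1
    linear_combination -4 * h4

/-- The theorem: `PGL(2, q)`, `q` odd, acting on the projective line over the field with `q`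
elements, is not strict EKR robust. -/
theorem result (F : Type*) [Field F] [Finite F] (hF : ringChar F ≠ 2) :
    ¬ StrictEKRRobust PGL(2, F) (ℙ F (Fin 2 → F)) := by
  classical
  have : Fintype F := Fintype.ofFinite F
  have hfin : Finite PGL(2, F) := Finite.of_surjective _ mk_surjective
  refine not_robust (half F) (index_half hF) ?_ ?_
  · have h1 := Projectivization.card_of_finrank_two F (Fin 2 → F) (by simp)
    rw [h1]
    have : 1 < Nat.card F := Finite.one_lt_card
    omega
  · intro i j hij
    obtain ⟨d, hd⟩ := FiniteField.exists_nonsquare hF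
    have hd0 : d ≠ 0 := by
      rintro rfl
      exact hd (IsSquare.zero)
    obtain ⟨t, ht⟩ := exists_trace hF hd0
    obtain ⟨C, hC, hdet⟩ := exists_gl d hd0 t
    let e0 : ℙ F (Fin 2 → F) := Projectivization.mk F ![1, 0] (by
      intro h; simpa using congrFun h 0)
    let e1 : ℙ F (Fin 2 → F) := Projectivization.mk F ![0, 1] (by
      intro h; simpa using congrFun h 1)
    have hne : e0 ≠ e1 := by
      intro h
      rw [Projectivization.mk_eq_mk_iff'] at h
      obtain ⟨a, ha⟩ := h
      simpa using congrFun ha 0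
    obtain ⟨P, hP0, hP1⟩ := (MulAction.is_two_pretransitive_iff
      (G := SpecialLinearGroup (Fin 2) F) (α := ℙ F (Fin 2 → F))).1 inferInstance hne hij
    let Q : GL (Fin 2) F := P
    have hQ : ∀ x : ℙ F (Fin 2 → F), (mk Q : PGL(2, F)) • x = P • x := by
      intro x
      induction x using Projectivization.ind with
      | _ v hv => rfl
    have hCe : (mk C : PGL(2, F)) • e0 = e1 := by
      rw [Projectivization.PGL.mk_smul_mk, Projectivization.mk_eq_mk_iff']
      refine ⟨1, ?_⟩
      have h1 : C • ![(1 : F), 0] = (C : Matrix (Fin 2) (Fin 2) F) *ᵥ ![1, 0] := rfl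
      rw [h1, hC]
      funext i
      fin_cases i <;> simp
    refine ⟨mk (Q * C * Q⁻¹), ⟨?_, ?_⟩, ?_⟩
    · intro x hx
      rw [map_mul, map_mul, map_inv, mul_smul, mul_smul] at hx
      apply companion t d ht hC ((mk Q)⁻¹ • x)
      rw [eq_inv_smul_iff]
      exact hx
    · rw [map_mul, map_mul, map_inv, mul_smul, mul_smul]
      have h1 : (mk Q : PGL(2, F))⁻¹ • i = e0 := by
        rw [inv_smul_eq_iff, hQ, hP0]
      rw [h1, hCe, hQ, hP1]
    · rw [mem_half, map_mul, map_mul, map_inv, mul_comm (sgn F Q), mul_assoc, mul_inv_cancel,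
        mul_one]
      intro h
      have h1 := congrArg Units.val h
      rw [sgn_val, hdet, quadraticChar_neg_one_iff_not_isSquare.2 hd] at h1
      norm_num at h1

end Pool.Agent.Results.MP_6fd06d_co.OddCharacteristic
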